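import Pool.Agent.H53.PC.Beta
import Pool.Agent.H73.PC.Seq
import Pool.Agent.H70.PC.NestT

/-!
# Plan C: the step BETA, from `K_SAT2`
-/

set_option autoImplicit false

namespace Pool.PC

open Finset Real
open Pool.Agent.H49.Ent Pool.Agent.H32.Dense Pool.STK Pool.KA Pool.KSAT Pool.K2S Pool.OCG
open Pool.OC.RS

namespace Bet

variable {J : ℕ}

/-- The data of `K_SAT2` for a context `c` which knows the box. -/
noncomputable def kd (F : Fam 2 J) (i0 : Fin 2) (q w l X : ℕ) (z : F.Ω → Fin 2 → ℝ) {S Ξ : Type}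
    (c : F.Ω → S) (W : F.Ω → Ξ) : Pool.KS2.KD where
  Om := F.Ω
  Lam := ((ℕ × (Fin 2 → ℝ)) × ((Fin 2 → ℤ) × (Fin 2 → ℤ))) × F.ζ
  Tau := ℕ
  Bet := S
  Xi := Ξ
  fin := F.fin
  P := F.p
  L := ctx F (q + X) i0 w l z
  T := F.T1 (w + X)
  b := c
  W := W
  th := th F w X
  o := fun k => o F i0 q l X z k
  N := fun k => N F i0 q w l X z k
  X := X

section ok

variable {F : Fam 2 J} {i0 : Fin 2} {q w l X : ℕ} {z : F.Ω → Fin 2 → ℝ} {S Ξ : Type}
  {c : F.Ω → S} {W : F.Ω → Ξ}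

theorem kd_ok (h : q + w + X + l ≤ J) (hz : ∀ ω i, |z ω i| ≤ 1)
    (hc : Det F.p c (ctx F q i0 w l z)) (hW : Det F.p W c) (hWX : Det F.p W (F.X J))
    (hWT : Det F.p W F.T) : (kd F i0 q w l X z c W).OK 4 0 where
  law := F.isLaw
  hth := by
    intro ω ω' _ _ e
    exact th_det (F := F) (by omega) (Prod.ext_iff.mp e).1
  ho := by
    intro k ω ω' hω hω' e
    have e1 : ctx F (q + X) i0 w l z ω = ctx F (q + X) i0 w l z ω' := (Prod.ext_iff.mp e).1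
    have e2 : c ω = c ω' := (Prod.ext_iff.mp e).2
    obtain ⟨-, -, -, h4, -⟩ := ctx_cells (by omega) (hc ω ω' hω hω' e2)
    obtain ⟨-, -, -, k4, -⟩ := ctx_cells (by omega) e1
    exact o_det k (h4 k) (k4 k)
  hB := by
    intro ω _ k
    have h1 := o_mem (F := F) (i0 := i0) (q := q) (l := l) (X := X) (z := z) k ω
    show |o F i0 q l X z k ω| ≤ 2 ^ 0
    rw [pow_zero, abs_le]
    constructor <;> linarith only [h1, h1.1, h1.2]
  hW := by
    intro ω ω' hω hω' e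
    have e1 : c ω = c ω' := hW ω ω' hω hω' e
    have e2 : F.X J ω = F.X J ω' := hWX ω ω' hω hω' e
    have e3 : F.T ω = F.T ω' := hWT ω ω' hω hω' e
    obtain ⟨-, h2, h3, h4, -⟩ := ctx_cells (by omega) (hc ω ω' hω hω' e1)
    have e4 : F.T1 (w + X) ω = F.T1 (w + X) ω' := by
      unfold Fam.T1
      rw [e3]
    have hN : ∀ k, N F i0 q w l X z k ω = N F i0 q w l X z k ω' := fun k =>
      N_det k e2 e3 h2 (h3 k) (h4 k)
    show (F.T1 (w + X) ω, (c ω, (N F i0 q w l X z 0 ω, N F i0 q w l X z 1 ω))) =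
      (F.T1 (w + X) ω', (c ω', (N F i0 q w l X z 0 ω', N F i0 q w l X z 1 ω')))
    rw [e1, e4, hN, hN]
  hN := by
    intro ω ω' hω hω' eL eb k
    have e1 : ctx F (q + X) i0 w l z ω = ctx F (q + X) i0 w l z ω' := eL
    obtain ⟨-, -, h3, h4, -⟩ := ctx_cells (by omega) (hc ω ω' hω hω' eb)
    obtain ⟨-, -, k3, k4, -⟩ := ctx_cells (by omega) e1
    exact N_two (by omega) hz h k (h3 k) (h4 k) (k3 k) (k4 k)

end ok

/-! ### Times -/

theorem floor_trunc {i X : ℕ} (h : i ≤ X) (t : ℝ) :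
    ⌊(2 : ℝ) ^ i * ((⌊(2 : ℝ) ^ X * t⌋ : ℝ) / 2 ^ X)⌋ = ⌊(2 : ℝ) ^ i * t⌋ := by
  have e1 : (2 : ℝ) ^ X = 2 ^ i * 2 ^ (X - i) := by rw [← pow_add, Nat.add_sub_cancel' h]
  have e2 : (2 : ℝ) ^ i * ((⌊(2 : ℝ) ^ X * t⌋ : ℝ) / 2 ^ X) =
      (⌊(2 : ℝ) ^ X * t⌋ : ℝ) / ((2 ^ (X - i) : ℕ) : ℝ) := by
    push_cast
    rw [e1]
    field_simp
  have e3 : (2 : ℝ) ^ i * t = (2 ^ X * t) / ((2 ^ (X - i) : ℕ) : ℝ) := by
    push_cast
    rw [e1]
    field_simp
  rw [e2, e3, Int.floor_div_natCast, Int.floor_div_natCast, Int.floor_intCast]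

theorem th_le {F : Fam 2 J} {w X : ℕ} (ω : F.Ω) :
    0 ≤ F.wt w ω - th F w X ω ∧ F.wt w ω - th F w X ω < 1 / 2 ^ X := by
  have hX : (0 : ℝ) < 2 ^ X := by positivity
  have f1 := Int.floor_le ((2 : ℝ) ^ X * F.wt w ω)
  have f2 := Int.lt_floor_add_one ((2 : ℝ) ^ X * F.wt w ω)
  unfold th
  have e : F.wt w ω - (⌊(2 : ℝ) ^ X * F.wt w ω⌋ : ℝ) / 2 ^ X =
      (2 ^ X * F.wt w ω - ⌊(2 : ℝ) ^ X * F.wt w ω⌋) / 2 ^ X := by
    field_simp
  rw [e]
  constructor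
  · exact div_nonneg (by linarith only [f1]) hX.le
  · exact div_lt_div_of_pos_right (by linarith) hX

/-- The probability of near samples, the line block and the context given. -/
noncomputable def fd (F : Fam 2 J) (i0 : Fin 2) (q w l X K : ℕ) (z : F.Ω → Fin 2 → ℝ) {S : Type}
    (c : F.Ω → S) (i : ℕ) (ω : F.Ω) : ℝ :=
  Pool.KAF.Pr (Pool.Agent.H49.Ent.cond F.p
      (kp (fun v => (ctx F (q + X) i0 w l z v, c v)) (F.wt w) i)
      (kp (fun v => (ctx F (q + X) i0 w l z v, c v)) (F.wt w) i ω))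
    {v | |F.wt w v - F.wt w ω| < (2 : ℝ) ^ (-((i : ℤ) + K))}

open Classical in
/-- The dead samples. -/
noncomputable def Dd (F : Fam 2 J) (i0 : Fin 2) (q w l X K : ℕ) (z : F.Ω → Fin 2 → ℝ) {S : Type}
    (c : F.Ω → S) (i : ℕ) : Set F.Ω :=
  if i + K + 1 ≤ X then {ω | 1 / 2 < fd F i0 q w l X K z c i ω} else Set.univ

section dead

variable {F : Fam 2 J} {i0 : Fin 2} {q w l X K : ℕ} {z : F.Ω → Fin 2 → ℝ} {S Ξ : Type}
  {c : F.Ω → S} {W : F.Ω → Ξ}

theorem dead_le {i : ℕ} (hi : i + K + 1 ≤ X) (ω : F.Ω) :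
    (kd F i0 q w l X z c W).dead (K + 1) i ω ≤ fd F i0 q w l X K z c i ω := by
  have hp := F.isLaw.nonneg
  have hT : ∀ v : F.Ω, (kd F i0 q w l X z c W).Ti i v = tl (F.wt w) i v := by
    intro v
    show ⌊(2 : ℝ) ^ i * th F w X v⌋ = ⌊(2 : ℝ) ^ i * F.wt w v⌋
    unfold th
    exact floor_trunc (by omega) _
  have hc : Pool.Agent.H49.Ent.cond F.p (fun v => (ctx F (q + X) i0 w l z v,
      (c v, (kd F i0 q w l X z c W).Ti i v))) (ctx F (q + X) i0 w l z ω,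
      (c ω, (kd F i0 q w l X z c W).Ti i ω)) =
      Pool.Agent.H49.Ent.cond F.p
      (kp (fun v => (ctx F (q + X) i0 w l z v, c v)) (F.wt w) i)
      (kp (fun v => (ctx F (q + X) i0 w l z v, c v)) (F.wt w) i ω) := by
    refine cond_classes (p := F.p) (X := fun v => (ctx F (q + X) i0 w l z v,
      (c v, (kd F i0 q w l X z c W).Ti i v)))
      (Y := kp (fun v => (ctx F (q + X) i0 w l z v, c v)) (F.wt w) i) (fun v v' => ?_) ω
    rw [hT, hT]
    unfold kp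
    simp only [Prod.mk.injEq]
    tauto
  show Pool.KAF.Pr (Pool.Agent.H49.Ent.cond F.p (fun v => (ctx F (q + X) i0 w l z v,
      (c v, (kd F i0 q w l X z c W).Ti i v))) (ctx F (q + X) i0 w l z ω,
      (c ω, (kd F i0 q w l X z c W).Ti i ω)))
      {v | |th F w X v - th F w X ω| < (2 : ℝ) ^ (-((i : ℤ) + (K + 1 : ℕ)))} ≤ _
  rw [hc]
  unfold fd
  refine Pool.OCG.Pr_mono' (fun v => cond_nonneg hp _ _ v) fun v _ hv => ?_
  have hv' : |th F w X v - th F w X ω| < (2 : ℝ) ^ (-((i : ℤ) + (K + 1 : ℕ))) := hv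
  have e1 : (2 : ℝ) ^ (-((i : ℤ) + (K + 1 : ℕ))) = 1 / 2 ^ (i + K + 1) := by
    rw [zpow_neg, one_div]
    congr 1
  have e2 : (2 : ℝ) ^ (-((i : ℤ) + K)) = 1 / 2 ^ (i + K) := by
    rw [zpow_neg, one_div]
    congr 1
  rw [e1] at hv'
  show |F.wt w v - F.wt w ω| < (2 : ℝ) ^ (-((i : ℤ) + K))
  rw [e2]
  have a1 := th_le (F := F) (w := w) (X := X) v
  have a2 := th_le (F := F) (w := w) (X := X) ω
  have e3 : (1 : ℝ) / 2 ^ X ≤ 1 / 2 ^ (i + K + 1) :=
    one_div_le_one_div_of_le (by positivity) (pow_le_pow_right₀ (by norm_num) hi)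
  have e4 : (1 : ℝ) / 2 ^ (i + K) = 1 / 2 ^ (i + K + 1) + 1 / 2 ^ (i + K + 1) := by
    rw [pow_succ]
    field_simp
    norm_num
  rw [e4]
  rw [abs_lt] at hv' ⊢
  constructor <;> linarith only [hv', a1, a2, e3, hv'.1, hv'.2, a1.1, a1.2, a2.1, a2.2]

theorem Dd_dead (i : ℕ) (ω : F.Ω) (hω : ω ∉ Dd F i0 q w l X K z c i) :
    (kd F i0 q w l X z c W).dead (K + 1) i ω ≤ 1 - 1 / 2 := by
  unfold Dd at hω
  by_cases hi : i + K + 1 ≤ X
  · rw [if_pos hi] at hω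
    have h1 : ¬ (1 / 2 < fd F i0 q w l X K z c i ω) := hω
    have h2 := dead_le (F := F) (i0 := i0) (q := q) (w := w) (l := l) (X := X) (K := K)
      (z := z) (c := c) (W := W) hi ω
    linarith only [h1, h2, not_lt.1 h1]
  · rw [if_neg hi] at hω
    exact absurd (Set.mem_univ ω) hω

theorem Dd_pr (hz : Det F.p (slam F w) z) (hc : Det F.p (slam F w) c) {i : ℕ}
    (hi : i + K + 1 ≤ X) :
    Pool.KAF.Pr F.p (Dd F i0 q w l X K z c i) ≤ 6 * nr F.p (slam F w) (F.wt w) K i := by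
  have hp := F.isLaw.nonneg
  unfold Dd
  rw [if_pos hi]
  have h1 : nr F.p (fun v => (ctx F (q + X) i0 w l z v, c v)) (F.wt w) K i =
      Ex F.p (fd F i0 q w l X K z c i) := by
    unfold nr
    rw [Pool.M5T.Pr_dbl]
    rfl
  have h2 := nr_coarse F.isLaw (L := slam F w)
    (L' := fun v => (ctx F (q + X) i0 w l z v, c v))
    (fun ω ω' hω hω' e => Prod.ext (ctx_det hz ω ω' hω hω' e) (hc ω ω' hω hω' e))
    (F.wt w) K i
  have h3 := Pool.M5T.Pr_gt hp (fd F i0 q w l X K z c i) (fun ω _ => Pool.OCG.Pr_nonneg'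
    (fun v => cond_nonneg hp _ _ v) _) (a := 1 / 2)
    (e := nr F.p (fun v => (ctx F (q + X) i0 w l z v, c v)) (F.wt w) K i) (by norm_num)
    (le_of_eq h1.symm)
  have h4 : nr F.p (fun v => (ctx F (q + X) i0 w l z v, c v)) (F.wt w) K i / (1 / 2) =
      2 * nr F.p (fun v => (ctx F (q + X) i0 w l z v, c v)) (F.wt w) K i := by ring
  rw [h4] at h3
  linarith only [h2, h3]

theorem Dd_sum (hz : Det F.p (slam F w) z) (hc : Det F.p (slam F w) c) :
    ∑ i ∈ range X, Pool.KAF.Pr F.p (Dd F i0 q w l X K z c i) ≤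
      6 * ∑ i ∈ range X, nr F.p (slam F w) (F.wt w) K i + (K + 1) := by
  have hp := F.isLaw.nonneg
  have h1 : ∀ i ∈ range X, Pool.KAF.Pr F.p (Dd F i0 q w l X K z c i) ≤
      6 * nr F.p (slam F w) (F.wt w) K i + (if X < i + K + 1 then (1 : ℝ) else 0) := by
    intro i _
    by_cases hi : i + K + 1 ≤ X
    · rw [if_neg (by omega)]
      have := Dd_pr (F := F) (i0 := i0) (q := q) (w := w) (l := l) (X := X) (K := K)
        (z := z) (c := c) hz hc hi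
      linarith only [this]
    · rw [if_pos (by omega)]
      have h2 := Pool.KAF.Pr_le_one F.isLaw (Dd F i0 q w l X K z c i)
      have h3 := nr_nonneg hp (slam F w) (F.wt w) K i
      linarith only [h2, h3]
  refine (Finset.sum_le_sum h1).trans ?_
  rw [Finset.sum_add_distrib, ← Finset.mul_sum]
  have h4 : ∑ i ∈ range X, (if X < i + K + 1 then (1 : ℝ) else 0) ≤ K + 1 := by
    rw [← Finset.sum_filter, Finset.sum_const, nsmul_eq_mul, mul_one]
    have h5 : ((range X).filter fun i => X < i + K + 1).card ≤ K + 1 := by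
      have h6 : ((range X).filter fun i => X < i + K + 1) ⊆ Finset.Ico (X - K) X := by
        intro i hi
        rw [Finset.mem_filter, Finset.mem_range] at hi
        rw [Finset.mem_Ico]
        omega
      refine (Finset.card_le_card h6).trans ?_
      rw [Nat.card_Ico]
      omega
    exact_mod_cast h5
  linarith

/-! ### The entropy of the rows, given the next context -/

/-- The rows, given the next context, the context and the window. -/
theorem N_ent {S' : Type} {c' : F.Ω → S'} {z' : F.Ω → Fin 2 → ℝ} {C₀ : ℝ} (hC₀ : 0 ≤ C₀)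
    (h : q + w + X + l ≤ J) (hz : ∀ ω i, |z ω i| ≤ 1)
    (hzz : ∀ ω, 0 < F.p ω → ∀ j, j ≠ i0 → |z ω j - z' ω j| ≤ C₀ / 2 ^ l)
    (hc : Det F.p c (ctx F q i0 w l z)) (hc' : Det F.p c' (ctx F q i0 (w + X) l z')) :
    CH F.p (fun ω => (N F i0 q w l X z 0 ω, N F i0 q w l X z 1 ω))
      (fun ω => (c' ω, (c ω, F.T1 (w + X) ω))) ≤ 2 * Real.log (2 * (C₀ + 12) + 1) := by
  have hp := F.isLaw.nonneg
  have key : ∀ k, CH F.p (N F i0 q w l X z k) (fun ω => (c' ω, (c ω, F.T1 (w + X) ω))) ≤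
      Real.log (2 * (C₀ + 12) + 1) := by
    intro k
    refine Chn.CH_z F.isLaw _ _ fun ω ω' hω hω' e => ?_
    simp only [Prod.mk.injEq] at e
    obtain ⟨e1, e2, e3⟩ := e
    obtain ⟨-, h2, h3, h4, -⟩ := ctx_cells (by omega) (hc ω ω' hω hω' e2)
    obtain ⟨-, k2, k3, -, -⟩ := ctx_cells (by omega) (hc' ω ω' hω hω' e1)
    exact N_next (by omega) hz h hC₀ k (hzz ω hω) h2 (h3 k) (h4 k) e3 k2 k3
  have h1 := CH_subadd hp (N F i0 q w l X z 0) (N F i0 q w l X z 1)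
    (fun ω => (c' ω, (c ω, F.T1 (w + X) ω)))
  linarith only [h1, key, key 0, key 1]

end dead

/-- The rounded velocities are flat only if the velocities are. -/
theorem flat_le {F : Fam 2 J} {i0 : Fin 2} {q w l X g : ℕ} {z : F.Ω → Fin 2 → ℝ} {S Ξ : Type}
    {c : F.Ω → S} {W : F.Ω → Ξ} {δ δ' : ℝ} (hδ : δ ≤ δ') (hg : g + 2 ≤ X)
    (hfl : Pool.KAF.Pr F.p {ω | ∃ α β γ : ℝ, α ^ 2 + β ^ 2 = 1 ∧
      δ < Pool.KAF.Pr (Pool.Agent.H49.Ent.cond F.p W (W ω))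
        {v | |α * Int.fract (V F i0 q l z 0 v) + β * Int.fract (V F i0 q l z 1 v) - γ| ≤
          1 / 2 ^ g}} ≤ δ) :
    Pool.KAF.Pr (kd F i0 q w l X z c W).P ((kd F i0 q w l X z c W).flat (g + 1) δ') ≤ δ' := by
  have hp := F.isLaw.nonneg
  refine le_trans (le_trans (Pool.OCG.Pr_mono' hp fun ω _ hω => ?_) hfl) hδ
  obtain ⟨α, β, γ, hab, hlt⟩ := hω
  refine ⟨α, β, γ, hab, lt_of_le_of_lt hδ (lt_of_lt_of_le hlt ?_)⟩
  refine Pool.OCG.Pr_mono' (fun v => cond_nonneg hp _ _ v) fun v _ hv => ?_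
  have hv' : |α * o F i0 q l X z 0 v + β * o F i0 q l X z 1 v - γ| ≤ 1 / 2 ^ (g + 1) := hv
  show |α * Int.fract (V F i0 q l z 0 v) + β * Int.fract (V F i0 q l z 1 v) - γ| ≤ 1 / 2 ^ g
  have hX : (0 : ℝ) < 2 ^ X := by positivity
  have ho : ∀ k, |Int.fract (V F i0 q l z k v) - o F i0 q l X z k v| ≤ 1 / 2 ^ X := by
    intro k
    have h1 := o_err (F := F) (i0 := i0) (q := q) (l := l) (X := X) (z := z) k v
    rw [abs_mul, abs_of_pos hX] at h1
    rw [le_div_iff₀ hX, mul_comm]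
    exact h1
  have ha : |α| ≤ 1 := by
    rw [abs_le]
    constructor <;> nlinarith only [hab, sq_nonneg β, sq_nonneg α]
  have hb : |β| ≤ 1 := by
    rw [abs_le]
    constructor <;> nlinarith only [hab, sq_nonneg β, sq_nonneg α]
  have e1 : α * Int.fract (V F i0 q l z 0 v) + β * Int.fract (V F i0 q l z 1 v) - γ =
      (α * o F i0 q l X z 0 v + β * o F i0 q l X z 1 v - γ) +
      α * (Int.fract (V F i0 q l z 0 v) - o F i0 q l X z 0 v) +
      β * (Int.fract (V F i0 q l z 1 v) - o F i0 q l X z 1 v) := by ring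
  have m1 : |α * (Int.fract (V F i0 q l z 0 v) - o F i0 q l X z 0 v)| ≤ 1 / 2 ^ X := by
    rw [abs_mul]
    calc _ ≤ 1 * (1 / 2 ^ X) := mul_le_mul ha (ho 0) (abs_nonneg _) zero_le_one
      _ = 1 / 2 ^ X := one_mul _
  have m2 : |β * (Int.fract (V F i0 q l z 1 v) - o F i0 q l X z 1 v)| ≤ 1 / 2 ^ X := by
    rw [abs_mul]
    calc _ ≤ 1 * (1 / 2 ^ X) := mul_le_mul hb (ho 1) (abs_nonneg _) zero_le_one
      _ = 1 / 2 ^ X := one_mul _
  have e2 : (1 : ℝ) / 2 ^ X ≤ 1 / 2 ^ (g + 2) :=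
    one_div_le_one_div_of_le (by positivity) (pow_le_pow_right₀ (by norm_num) hg)
  have e3 : (1 : ℝ) / 2 ^ g = 1 / 2 ^ (g + 1) + 1 / 2 ^ (g + 2) + 1 / 2 ^ (g + 2) := by
    have p1 : (2 : ℝ) ^ (g + 1) = 2 * 2 ^ g := by ring
    have p2 : (2 : ℝ) ^ (g + 2) = 4 * 2 ^ g := by ring
    rw [p1, p2]
    field_simp
    norm_num
  rw [e1, e3]
  rw [abs_le] at *
  constructor <;> linarith only [hv', m1, m2, e2, hv'.1, hv'.2, m1.1, m1.2, m2.1, m2.2]

end Bet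

/-- **The step BETA.** -/
theorem beta_step (hKS : Pool.KS2.KSat2Stmt) (K : ℕ) (C₀ ε : ℝ) (hC₀ : 0 ≤ C₀) (hε : 0 < ε) :
    ∃ (δ : ℝ) (X₀ : ℕ) (C : ℝ), 0 < δ ∧ 0 ≤ C ∧ ∀ {J : ℕ} (F : Fam 2 J) (i0 : Fin 2)
      (q w X l g : ℕ) (z z' : F.Ω → Fin 2 → ℝ) {S S' Ξ : Type} (c : F.Ω → S) (c' : F.Ω → S')
      (W : F.Ω → Ξ), X₀ ≤ X → (g : ℝ) ≤ δ * X → q + w + X + l ≤ J → (∀ ω i, |z ω i| ≤ 1) →
      (∀ ω, 0 < F.p ω → ∀ j, j ≠ i0 → |z ω j - z' ω j| ≤ C₀ / 2 ^ l) →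
      Det F.p (slam F w) c → Det F.p c (ctx F q i0 w l z) →
      Det F.p c' (ctx F q i0 (w + X) l z') →
      Det F.p W c → Det F.p W (F.X J) → Det F.p W F.T →
      mi F.p (F.T1 (w + X)) (ctx F (q + X) i0 w l z) c ≤ δ * X →
      Pool.KAF.Pr F.p {ω | ∃ α β γ : ℝ, α ^ 2 + β ^ 2 = 1 ∧
        δ < Pool.KAF.Pr (Pool.Agent.H49.Ent.cond F.p W (W ω))
          {v | |α * Int.fract (Bet.V F i0 q l z 0 v) + β * Int.fract (Bet.V F i0 q l z 1 v) - γ| ≤
            1 / 2 ^ g}} ≤ δ →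
      nfo F w c + (2 - ε) * X * Real.log 2 -
          12 * Real.log 2 * ∑ i ∈ range X, nr F.p (slam F w) (F.wt w) K i ≤
        nfo F (w + X) c' + CH F.p c (fun ω => (c' ω, F.Z ω)) + C := by
  obtain ⟨δ', X₁, hδ', key⟩ := hKS 4 0 (K + 1) (1 / 2) ε (by norm_num) hε
  have hl2 : 0 < Real.log 2 := Real.log_pos (by norm_num)
  have hlC : 0 ≤ Real.log (2 * (C₀ + 12) + 1) := Real.log_nonneg (by linarith)
  refine ⟨min (δ' / 2) (1 / 4), max (max X₁ 8) ⌈2 / δ'⌉₊,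
    2 * Real.log 2 * (K + 1) + 2 * Real.log (2 * (C₀ + 12) + 1),
    lt_min (by linarith only [hδ']) (by norm_num), by positivity, ?_⟩
  intro J F i0 q w X l g z z' S S' Ξ c c' W hX₀ hg hJ hz hzz hcl hc hc' hWc hWX hWT hmi hfl
  have hp := F.isLaw.nonneg
  have hX1 : X₁ ≤ X := (le_max_left _ _).trans ((le_max_left _ _).trans hX₀)
  have hX8 : 8 ≤ X := (le_max_right _ _).trans ((le_max_left _ _).trans hX₀)
  have hXd : 2 / δ' ≤ X := by
    have h1 : (⌈2 / δ'⌉₊ : ℝ) ≤ X := by exact_mod_cast (le_max_right _ _).trans hX₀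
    exact (Nat.le_ceil _).trans h1
  have hXr : (8 : ℝ) ≤ X := by exact_mod_cast hX8
  have hXp : (0 : ℝ) ≤ X := by linarith only [hXr]
  have hg1 : (g : ℝ) ≤ δ' / 2 * X :=
    hg.trans (mul_le_mul_of_nonneg_right (min_le_left _ _) hXp)
  have hg2 : (g : ℝ) ≤ 1 / 4 * X :=
    hg.trans (mul_le_mul_of_nonneg_right (min_le_right _ _) hXp)
  have hg3 : g + 2 ≤ X := by
    have : ((g + 2 : ℕ) : ℝ) ≤ X := by
      push_cast
      linarith only [hXr, hg2]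
    exact_mod_cast this
  have hg4 : ((g + 1 : ℕ) : ℝ) ≤ δ' * X := by
    push_cast
    rw [div_le_iff₀ hδ'] at hXd
    nlinarith only [hXd, hg1]
  have hδδ : min (δ' / 2) (1 / 4) ≤ δ' := (min_le_left _ _).trans (by linarith only [hδ'])
  have h1 := key (Bet.kd F i0 q w l X z c W) (g + 1)
    (Bet.kd_ok hJ hz hc hWc hWX hWT) hX1 hg4
    (hmi.trans (mul_le_mul_of_nonneg_right hδδ hXp)) (Bet.flat_le hδδ hg3 hfl)
    (Bet.Dd F i0 q w l X K z c) (fun i ω _ hω => Bet.Dd_dead i ω hω)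
  have hzd : Det F.p (slam F w) z := by
    intro ω ω' hω hω' e
    exact (Bet.ctx_cells (by omega) (hc ω ω' hω hω' (hcl ω ω' hω hω' e))).2.1
  have h2 := Bet.Dd_sum (F := F) (i0 := i0) (q := q) (w := w) (l := l) (X := X) (K := K)
    (z := z) (c := c) hzd hcl
  have h1' : (2 - ε) * X * Real.log 2 - 2 * Real.log 2 *
      ∑ i ∈ range X, Pool.KAF.Pr F.p (Bet.Dd F i0 q w l X K z c i) ≤
      CH F.p (fun ω => (Bet.N F i0 q w l X z 0 ω, Bet.N F i0 q w l X z 1 ω))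
        (fun ω => (F.T1 (w + X) ω, c ω)) := h1
  have h3 := Full.nfo_step F (w := w) (X := X) (by omega) c c' (F.T1 (w + X)) hcl
    (fun ω ω' hω hω' e => ctx_Z (hc ω ω' hω hω' e))
    (fun ω ω' hω hω' e => ctx_T1 (hc' ω ω' hω hω' e)) (fun _ _ _ _ e => e)
  have h4 := CH_le_add hp (fun ω => (Bet.N F i0 q w l X z 0 ω, Bet.N F i0 q w l X z 1 ω)) c'
    (fun ω => (c ω, F.T1 (w + X) ω))
  have h5 := Bet.N_ent (F := F) (i0 := i0) (q := q) (w := w) (l := l) (X := X) hC₀ hJ hz hzz hc hc'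
  have h6 : CH F.p (fun ω => (Bet.N F i0 q w l X z 0 ω, Bet.N F i0 q w l X z 1 ω))
      (fun ω => (F.T1 (w + X) ω, c ω)) =
      CH F.p (fun ω => (Bet.N F i0 q w l X z 0 ω, Bet.N F i0 q w l X z 1 ω))
      (fun ω => (c ω, F.T1 (w + X) ω)) := by
    refine CH_congr hp (fun _ _ _ _ e => (Prod.ext_iff.mp e).1)
      (fun _ _ _ _ e => (Prod.ext_iff.mp e).1) ?_ ?_
    · intro ω ω' _ _ e
      have := Prod.ext_iff.mp e
      exact Prod.ext this.2 this.1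
    · intro ω ω' _ _ e
      have := Prod.ext_iff.mp e
      exact Prod.ext this.2 this.1
  nlinarith only [h1', h3, h4, h5, h6, hl2, h2]

/-- **BETA, all steps.** The losses are linear in the information of the times and in the time
numbers. -/
theorem beta_lin (hKS : Pool.KS2.KSat2Stmt) (K : ℕ) (ε : ℝ) (hε : 0 < ε) :
    ∃ (δ : ℝ) (X₀ : ℕ) (C₁ : ℝ), 0 < δ ∧ 0 ≤ C₁ ∧ ∀ {J : ℕ} (F : Fam 2 J) (i0 : Fin 2)
      (q w X M l g : ℕ) (z : F.Ω → Fin 2 → ℝ) {S Ξ : ℕ → Type} (C : (j : ℕ) → F.Ω → S j)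
      (W : (j : ℕ) → F.Ω → Ξ j) (c₀ : ℝ), CSeq F w X M C c₀ → X₀ ≤ X → (g : ℝ) ≤ δ * X →
      q + (w + M * X) + l ≤ J → (∀ ω i, |z ω i| ≤ 1) →
      (∀ j, j ≤ M → Det F.p (C j) (ctx F q i0 (w + j * X) l z)) →
      (∀ j, j < M → Det F.p (W j) (C j) ∧ Det F.p (W j) (F.X J) ∧ Det F.p (W j) F.T) →
      (∀ j, j < M → Pool.KAF.Pr F.p {ω | ∃ α β γ : ℝ, α ^ 2 + β ^ 2 = 1 ∧
        δ < Pool.KAF.Pr (Pool.Agent.H49.Ent.cond F.p (W j) (W j ω))
          {v | |α * Int.fract (Bet.V F i0 q l z 0 v) + β * Int.fract (Bet.V F i0 q l z 1 v) - γ| ≤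
            1 / 2 ^ g}} ≤ δ) →
      nfo F w (C 0) + M * ((2 - ε) * X * Real.log 2) -
          (12 * Real.log 2 * ∑ j ∈ range M, ∑ i ∈ range X,
              nr F.p (slam F (w + j * X)) (F.wt (w + j * X)) K i +
            2 * Real.log 2 / δ * ∑ j ∈ range M, mi F.p (F.T1 (w + (j + 1) * X))
              (ctx F (q + X) i0 (w + j * X) l z) (C j) + M * (c₀ + C₁)) ≤
        nfo F (w + M * X) (C M) := by
  obtain ⟨δ, X₀, C₁, hδ, hC₁, key⟩ := beta_step hKS K 0 ε le_rfl hε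
  refine ⟨δ, X₀, C₁, hδ, hC₁, ?_⟩
  intro J F i0 q w X M l g z S Ξ C W c₀ hC hX₀ hg hJ hz hc hW hfl
  have hp := F.isLaw.nonneg
  have hl2 : 0 < Real.log 2 := Real.log_pos (by norm_num)
  have hXr : (0 : ℝ) ≤ X := Nat.cast_nonneg X
  -- one step
  have one : ∀ j, j < M → nfo F (w + j * X) (C j) + (2 - ε) * X * Real.log 2 -
      12 * Real.log 2 * ∑ i ∈ range X, nr F.p (slam F (w + j * X)) (F.wt (w + j * X)) K i -
      2 * Real.log 2 / δ * mi F.p (F.T1 (w + (j + 1) * X))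
        (ctx F (q + X) i0 (w + j * X) l z) (C j) - (c₀ + C₁) ≤
      nfo F (w + (j + 1) * X) (C (j + 1)) := by
    intro j hj
    have hjM := Nat.mul_le_mul_right X (show j + 1 ≤ M by omega)
    have e1 : w + (j + 1) * X = w + j * X + X := CSeq.succ j
    have e2 : (j + 1) * X = j * X + X := by ring
    have hT : 0 ≤ ∑ i ∈ range X, nr F.p (slam F (w + j * X)) (F.wt (w + j * X)) K i :=
      Finset.sum_nonneg fun i _ => nr_nonneg hp _ _ _ _
    have hn : CH F.p (C j) (fun ω => (C (j + 1) ω, F.Z ω)) ≤ c₀ :=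
      (CH_mono_cond hp fun _ _ _ _ e => (Prod.ext_iff.mp e).1).trans (hC.nest j hj)
    have hm0 : 0 ≤ mi F.p (F.T1 (w + (j + 1) * X)) (ctx F (q + X) i0 (w + j * X) l z) (C j) :=
      mi_nonneg hp _ _ _
    by_cases hm : mi F.p (F.T1 (w + (j + 1) * X)) (ctx F (q + X) i0 (w + j * X) l z) (C j) ≤
        δ * X
    · have h1 := key F i0 q (w + j * X) X l g z z (C j) (C (j + 1)) (W j) hX₀ hg (by omega) hz
        (fun ω _ k _ => by simp) (hC.det j hj.le) (hc j hj.le)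
        (by rw [← e1]; exact hc (j + 1) hj) (hW j hj).1 (hW j hj).2.1 (hW j hj).2.2
        (by rw [← e1]; exact hm) (hfl j hj)
      rw [← e1] at h1
      have h2 : 0 ≤ 2 * Real.log 2 / δ * mi F.p (F.T1 (w + (j + 1) * X))
        (ctx F (q + X) i0 (w + j * X) l z) (C j) := by positivity
      linarith only [hn, h1, h2]
    · have h1 := hC.step hj (fun _ => ())
      have h2 : 0 ≤ CH F.p (fun _ : F.Ω => ())
          (fun ω => (C j ω, F.T1 (w + (j + 1) * X) ω)) := CH_nonneg hp _ _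
      have h3 : CH F.p (fun _ : F.Ω => ()) (C (j + 1)) ≤ 0 :=
        le_of_eq (CH_eq_zero hp fun _ _ _ _ _ => rfl)
      have h4 : (2 - ε) * X * Real.log 2 ≤ 2 * Real.log 2 / δ *
          mi F.p (F.T1 (w + (j + 1) * X)) (ctx F (q + X) i0 (w + j * X) l z) (C j) := by
        have h5 : 2 * Real.log 2 / δ * (δ * X) ≤ 2 * Real.log 2 / δ *
            mi F.p (F.T1 (w + (j + 1) * X)) (ctx F (q + X) i0 (w + j * X) l z) (C j) :=
          mul_le_mul_of_nonneg_left (not_le.1 hm).le (by positivity)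
        have h6 : 2 * Real.log 2 / δ * (δ * X) = 2 * Real.log 2 * X := by field_simp
        rw [h6] at h5
        have h7 : 0 ≤ ε * (X * Real.log 2) := by positivity
        linarith only [h5, h7]
      have h7 : 0 ≤ 12 * Real.log 2 * ∑ i ∈ range X,
          nr F.p (slam F (w + j * X)) (F.wt (w + j * X)) K i := by positivity
      linarith only [hC₁, h1, h2, h3, h4, h7]
  -- the sum
  have sumk : ∀ k, k ≤ M → nfo F w (C 0) + k * ((2 - ε) * X * Real.log 2) -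
      (12 * Real.log 2 * ∑ j ∈ range k, ∑ i ∈ range X,
          nr F.p (slam F (w + j * X)) (F.wt (w + j * X)) K i +
        2 * Real.log 2 / δ * ∑ j ∈ range k, mi F.p (F.T1 (w + (j + 1) * X))
          (ctx F (q + X) i0 (w + j * X) l z) (C j) + k * (c₀ + C₁)) ≤
      nfo F (w + k * X) (C k) := by
    intro k
    induction k with
    | zero =>
      intro _
      simp
    | succ k ih =>
      intro hk
      have h1 := ih (by omega)
      have h2 := one k (by omega)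
      rw [Finset.sum_range_succ, Finset.sum_range_succ]
      push_cast
      linarith only [h1, h2]
  exact sumk M le_rfl

/-- The context of helper70 determines the context of the progression. -/
theorem ctx_of_ctt {J : ℕ} {F : Fam 2 J} {i0 : Fin 2} {q w l : ℕ} {z : F.Ω → Fin 2 → ℝ}
    (hz0 : ∀ ω, z ω i0 = 0) (h : q + w ≤ J) {ω ω' : F.Ω}
    (e : F.ctt w q l i0 z ω = F.ctt w q l i0 z ω') :
    ctx F q i0 w l z ω = ctx F q i0 w l z ω' := by
  obtain ⟨a1, a2, a3, a4, a5⟩ := Box.mlb_ext (show F.mlb w (fun i => min (qcv q l i0 i + w) J)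
    (qcv q l i0) (fun ω => zfr i0 (z ω)) ω = F.mlb w (fun i => min (qcv q l i0 i + w) J)
    (qcv q l i0) (fun ω => zfr i0 (z ω)) ω' from e)
  have hz : z ω = z ω' := by
    funext i
    by_cases hi : i = i0
    · rw [hi, hz0, hz0]
    · exact zfr_eq a2 hi
  unfold ctx
  refine tlb_mk a1 hz ?_ ?_ a5
  · funext i
    have h1 : ⌊(2 : ℝ) ^ min (qcv q l i0 i + w) J * mco (zfr i0 (z ω)) (F.x1 w ω) i⌋ =
        ⌊(2 : ℝ) ^ min (qcv q l i0 i + w) J * mco (zfr i0 (z ω')) (F.x1 w ω') i⌋ := congrFun a3 i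
    unfold pps
    by_cases hi : i = i0
    · rw [if_pos hi, if_pos hi]
      subst hi
      rw [zfr_i0, zfr_i0] at h1
      unfold qcv at h1
      rw [if_pos rfl, min_eq_left h] at h1
      exact h1
    · rw [if_neg hi, if_neg hi]
      rw [zfr_ne hi, zfr_ne hi] at h1
      unfold qcv at h1
      rw [if_neg hi] at h1
      have e1 : q + l + w = q + w + l := by ring
      rw [e1] at h1
      exact h1
  · funext i
    have h1 : ⌊(2 : ℝ) ^ (qcv q l i0 i) * mco (zfr i0 (z ω)) (F.d ω) i⌋ =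
        ⌊(2 : ℝ) ^ (qcv q l i0 i) * mco (zfr i0 (z ω')) (F.d ω') i⌋ := congrFun a4 i
    show ⌊(2 : ℝ) ^ q * pco l i0 (z ω) (F.d ω) i⌋ = ⌊(2 : ℝ) ^ q * pco l i0 (z ω') (F.d ω') i⌋
    unfold pco
    by_cases hi : i = i0
    · rw [if_pos hi, if_pos hi]
      subst hi
      rw [zfr_i0, zfr_i0] at h1
      unfold qcv at h1
      rw [if_pos rfl] at h1
      exact h1
    · rw [if_neg hi, if_neg hi]
      rw [zfr_ne hi, zfr_ne hi] at h1
      unfold qcv at h1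
      rw [if_neg hi, pow_add, mul_assoc, mul_assoc] at h1
      exact h1

/-- The velocities of the box, as in `exa2ks`. -/
theorem Bet.V_zero {J : ℕ} {F : Fam 2 J} {i0 : Fin 2} {q l : ℕ} {z : F.Ω → Fin 2 → ℝ}
    (ω : F.Ω) : Bet.V F i0 q l z 0 ω = 2 ^ q * F.d ω i0 := by
  unfold Bet.V Bet.prc Bet.cor
  rw [if_pos rfl, if_pos rfl]

theorem Bet.V_one {J : ℕ} {F : Fam 2 J} {i0 : Fin 2} {q l : ℕ} {z : F.Ω → Fin 2 → ℝ}
    (ω : F.Ω) : Bet.V F i0 q l z 1 ω =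
      2 ^ (q + l) * (F.d ω (oth i0) - z ω (oth i0) * F.d ω i0) := by
  unfold Bet.V Bet.prc Bet.cor
  rw [if_neg (by decide), if_neg (by decide)]

end Pool.PC
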