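import Pool.Agent.H60.KS2.Defs
import Pool.Agent.H92.PC.Line
import Pool.Agent.H40.PC.Time
import Pool.Agent.H54.PC.BoxDefs

/-!
# Plan C: the step BETA

In a context `c` which knows the box of the level to the velocity scale `q` in a closed frame, the
information grows by `2 X` digits from the window `w` to the window `w + X`, by `K_SAT2`.
-/

set_option autoImplicit false

namespace Pool.PC

open Finset Real
open Pool.Agent.H49.Ent Pool.Agent.H32.Dense Pool.STK Pool.KA Pool.KSAT Pool.K2S Pool.OCG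
open Pool.OC.RS

namespace Bet

variable {J : ℕ}

/-- The precisions of the two coordinates. -/
def prc (q l : ℕ) (k : Fin 2) : ℕ := if k = 0 then q else q + l

/-- The two coordinates in the frame `z`. -/
def cor (i0 : Fin 2) (z x : Fin 2 → ℝ) (k : Fin 2) : ℝ :=
  if k = 0 then x i0 else x (oth i0) - z (oth i0) * x i0

theorem cor_add_mul (i0 : Fin 2) (z x y : Fin 2 → ℝ) (s : ℝ) (k : Fin 2) :
    cor i0 z (fun i => x i + s * y i) k = cor i0 z x k + s * cor i0 z y k := by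
  unfold cor
  split_ifs <;> ring

theorem oth_ne (i0 : Fin 2) : oth i0 ≠ i0 := by
  fin_cases i0 <;> simp [oth]

section defs

variable (F : Fam 2 J) (i0 : Fin 2) (q w l X : ℕ) (z : F.Ω → Fin 2 → ℝ)

/-- The position at the beginning of the window, in units of the box. -/
noncomputable def A (k : Fin 2) (ω : F.Ω) : ℝ := 2 ^ (prc q l k + w) * cor i0 (z ω) (F.x1 w ω) k

/-- The velocity in units of the box. -/
noncomputable def V (k : Fin 2) (ω : F.Ω) : ℝ := 2 ^ prc q l k * cor i0 (z ω) (F.d ω) k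

/-- The rounded exact position. -/
noncomputable def xJ (ω : F.Ω) (j : Fin 2) : ℝ := (F.X J ω j : ℝ) / 2 ^ J

/-- The rows of the position at the exact time. -/
noncomputable def N (k : Fin 2) (ω : F.Ω) : ℤ :=
  ⌊(2 : ℝ) ^ X * (2 ^ (prc q l k + w) * cor i0 (z ω) (xJ F ω) k - ⌊A F i0 q w l z k ω⌋ -
    F.wt w ω * ⌊V F i0 q l z k ω⌋)⌋

/-- The velocity inside the box, rounded. -/
noncomputable def o (k : Fin 2) (ω : F.Ω) : ℝ :=
  (⌊(2 : ℝ) ^ X * Int.fract (V F i0 q l z k ω)⌋ : ℝ) / 2 ^ X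

/-- The time inside the window, rounded. -/
noncomputable def th (ω : F.Ω) : ℝ := (⌊(2 : ℝ) ^ X * F.wt w ω⌋ : ℝ) / 2 ^ X

end defs

section lem

variable {F : Fam 2 J} {i0 : Fin 2} {q w l X : ℕ} {z z' : F.Ω → Fin 2 → ℝ}

theorem ctx_cells (h : q + w + l ≤ J) {ω ω' : F.Ω}
    (he : ctx F q i0 w l z ω = ctx F q i0 w l z ω') :
    F.T1 w ω = F.T1 w ω' ∧ z ω = z ω' ∧ (∀ k, ⌊A F i0 q w l z k ω⌋ = ⌊A F i0 q w l z k ω'⌋) ∧
      (∀ k, ⌊V F i0 q l z k ω⌋ = ⌊V F i0 q l z k ω'⌋) ∧ F.Z ω = F.Z ω' := by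
  unfold ctx at he
  rw [min_eq_left h] at he
  obtain ⟨h1, h2, h3, h4, h5⟩ := tlb_ext he
  refine ⟨h1, h2, fun k => ?_, fun k => ?_, h5⟩
  · unfold A prc cor
    by_cases hk : k = 0
    · rw [if_pos hk, if_pos hk, if_pos hk]
      have e := congrFun h3 i0
      unfold pps at e
      rw [if_pos rfl, if_pos rfl] at e
      exact e
    · rw [if_neg hk, if_neg hk, if_neg hk]
      have e := congrFun h3 (oth i0)
      unfold pps at e
      rw [if_neg (oth_ne i0), if_neg (oth_ne i0)] at e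
      have e2 : q + l + w = q + w + l := by ring
      rw [e2]
      exact e
  · unfold V prc cor
    by_cases hk : k = 0
    · rw [if_pos hk, if_pos hk, if_pos hk]
      have e : ⌊(2 : ℝ) ^ q * pco l i0 (z ω) (F.d ω) i0⌋ =
        ⌊(2 : ℝ) ^ q * pco l i0 (z ω') (F.d ω') i0⌋ := congrFun h4 i0
      unfold pco at e
      rw [if_pos rfl, if_pos rfl] at e
      exact e
    · rw [if_neg hk, if_neg hk, if_neg hk]
      have e : ⌊(2 : ℝ) ^ q * pco l i0 (z ω) (F.d ω) (oth i0)⌋ =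
        ⌊(2 : ℝ) ^ q * pco l i0 (z ω') (F.d ω') (oth i0)⌋ := congrFun h4 (oth i0)
      unfold pco at e
      rw [if_neg (oth_ne i0), if_neg (oth_ne i0), ← mul_assoc, ← mul_assoc, ← pow_add] at e
      exact e

theorem prc_add (k : Fin 2) : prc (q + X) l k = prc q l k + X := by
  unfold prc
  split_ifs <;> ring

theorem A_add (k : Fin 2) (ω : F.Ω) : A F i0 (q + X) w l z k ω = 2 ^ X * A F i0 q w l z k ω := by
  unfold A
  rw [prc_add]
  have : prc q l k + X + w = X + (prc q l k + w) := by ring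
  rw [this, pow_add, mul_assoc]

theorem V_add (k : Fin 2) (ω : F.Ω) : V F i0 (q + X) l z k ω = 2 ^ X * V F i0 q l z k ω := by
  unfold V
  rw [prc_add, pow_add]
  ring

theorem floor_fract (X : ℕ) (x : ℝ) :
    ⌊(2 : ℝ) ^ X * Int.fract x⌋ = ⌊(2 : ℝ) ^ X * x⌋ - 2 ^ X * ⌊x⌋ := by
  have e : (2 : ℝ) ^ X * Int.fract x = 2 ^ X * x - ((2 ^ X * ⌊x⌋ : ℤ) : ℝ) := by
    rw [Int.fract]
    push_cast
    ring
  rw [e, Int.floor_sub_intCast]

theorem floor_abs (x y : ℝ) : |((⌊x⌋ : ℤ) : ℝ) - ⌊y⌋ - (x - y)| ≤ 1 := by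
  have f1 := Int.floor_le x
  have f2 := Int.lt_floor_add_one x
  have f3 := Int.floor_le y
  have f4 := Int.lt_floor_add_one y
  rw [abs_le]
  constructor <;> linarith

/-- The fine digits of two numbers. -/
theorem floor_fine {X : ℕ} {x y : ℝ} (h : ⌊(2 : ℝ) ^ X * x⌋ = ⌊(2 : ℝ) ^ X * y⌋) :
    |2 ^ X * (x - y)| ≤ 1 := by
  have h1 := Int.abs_sub_lt_one_of_floor_eq_floor h
  rw [← mul_sub] at h1
  exact h1.le

theorem rnd_err (X : ℕ) (x : ℝ) : |(2 : ℝ) ^ X * x - ⌊(2 : ℝ) ^ X * x⌋| ≤ 1 := by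
  have f1 := Int.floor_le ((2 : ℝ) ^ X * x)
  have f2 := Int.lt_floor_add_one ((2 : ℝ) ^ X * x)
  rw [abs_le]
  constructor <;> linarith

/-- The exact position in units of the box. -/
theorem pos_dec (hw : w ≤ J) (k : Fin 2) (ω : F.Ω) :
    2 ^ (prc q l k + w) * cor i0 (z ω) (F.x ω) k =
      A F i0 q w l z k ω + F.wt w ω * V F i0 q l z k ω := by
  have h1 : F.x ω = fun j => F.x1 w ω j + (F.wt w ω * (2 ^ w)⁻¹) * F.d ω j := by
    funext j
    unfold Fam.x Fam.x1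
    rw [Lab.t_eq F hw ω]
    ring
  rw [h1, cor_add_mul]
  unfold A V
  rw [pow_add]
  have : (2 : ℝ) ^ w ≠ 0 := by positivity
  field_simp

/-- The rounding error of the exact position. -/
theorem rnd_pos (hz : ∀ ω i, |z ω i| ≤ 1) (h : q + w + X + l ≤ J) (k : Fin 2) (ω : F.Ω) :
    |2 ^ X * (2 ^ (prc q l k + w) * cor i0 (z ω) (xJ F ω) k) -
      2 ^ X * (2 ^ (prc q l k + w) * cor i0 (z ω) (F.x ω) k)| ≤ 2 := by
  have hJ : (0 : ℝ) < 2 ^ J := by positivity
  have hx : ∀ j, |xJ F ω j - F.x ω j| ≤ 1 / 2 ^ J := by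
    intro j
    unfold xJ
    have e : F.X J ω j = ⌊(2 : ℝ) ^ J * F.x ω j⌋ := rfl
    rw [e]
    have h1 := rnd_err J (F.x ω j)
    rw [abs_sub_comm] at h1
    have e2 : ((⌊(2 : ℝ) ^ J * F.x ω j⌋ : ℤ) : ℝ) / 2 ^ J - F.x ω j =
        (((⌊(2 : ℝ) ^ J * F.x ω j⌋ : ℤ) : ℝ) - 2 ^ J * F.x ω j) / 2 ^ J := by
      field_simp
    rw [e2, abs_div, abs_of_pos hJ]
    exact div_le_div_of_nonneg_right h1 hJ.le
  have hc : |cor i0 (z ω) (xJ F ω) k - cor i0 (z ω) (F.x ω) k| ≤ 2 / 2 ^ J := by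
    have e0 : (2 : ℝ) / 2 ^ J = 1 / 2 ^ J + 1 / 2 ^ J := by ring
    have hp : (0 : ℝ) ≤ 1 / 2 ^ J := by positivity
    unfold cor
    split_ifs
    · rw [e0]
      linarith [hx i0]
    · have e1 : xJ F ω (oth i0) - z ω (oth i0) * xJ F ω i0 -
          (F.x ω (oth i0) - z ω (oth i0) * F.x ω i0) =
          (xJ F ω (oth i0) - F.x ω (oth i0)) - z ω (oth i0) * (xJ F ω i0 - F.x ω i0) := by ring
      rw [e1, e0]
      refine (abs_sub _ _).trans (add_le_add (hx _) ?_)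
      rw [abs_mul]
      calc |z ω (oth i0)| * |xJ F ω i0 - F.x ω i0| ≤ 1 * (1 / 2 ^ J) :=
            mul_le_mul (hz _ _) (hx _) (abs_nonneg _) zero_le_one
        _ = 1 / 2 ^ J := one_mul _
  have e3 : 2 ^ X * (2 ^ (prc q l k + w) * cor i0 (z ω) (xJ F ω) k) -
      2 ^ X * (2 ^ (prc q l k + w) * cor i0 (z ω) (F.x ω) k) =
      2 ^ (X + (prc q l k + w)) * (cor i0 (z ω) (xJ F ω) k - cor i0 (z ω) (F.x ω) k) := by
    rw [pow_add]
    ring
  rw [e3, abs_mul, abs_of_pos (by positivity : (0 : ℝ) < 2 ^ (X + (prc q l k + w)))]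
  have h4 : X + (prc q l k + w) ≤ J := by
    unfold prc
    split_ifs <;> omega
  have h5 : (2 : ℝ) ^ (X + (prc q l k + w)) ≤ 2 ^ J := pow_le_pow_right₀ (by norm_num) h4
  calc 2 ^ (X + (prc q l k + w)) * |cor i0 (z ω) (xJ F ω) k - cor i0 (z ω) (F.x ω) k| ≤
        2 ^ J * (2 / 2 ^ J) := mul_le_mul h5 hc (abs_nonneg _) hJ.le
    _ = 2 := by field_simp

/-- The rows are the position in the box, up to a bounded error. -/
theorem N_err (hw : w ≤ J) (hz : ∀ ω i, |z ω i| ≤ 1) (h : q + w + X + l ≤ J) (k : Fin 2)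
    (ω : F.Ω) : |(N F i0 q w l X z k ω : ℝ) - 2 ^ X * (Int.fract (A F i0 q w l z k ω) +
      F.wt w ω * Int.fract (V F i0 q l z k ω))| ≤ 3 := by
  have h1 := rnd_pos (i0 := i0) hz h k ω
  rw [pos_dec hw] at h1
  have h2 := rnd_err X (2 ^ (prc q l k + w) * cor i0 (z ω) (xJ F ω) k - ⌊A F i0 q w l z k ω⌋ -
    F.wt w ω * ⌊V F i0 q l z k ω⌋)
  have e1 : Int.fract (A F i0 q w l z k ω) = A F i0 q w l z k ω - ⌊A F i0 q w l z k ω⌋ := rfl
  have e2 : Int.fract (V F i0 q l z k ω) = V F i0 q l z k ω - ⌊V F i0 q l z k ω⌋ := rfl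
  rw [e1, e2]
  have e3 : (N F i0 q w l X z k ω : ℝ) = (⌊(2 : ℝ) ^ X * (2 ^ (prc q l k + w) *
    cor i0 (z ω) (xJ F ω) k - ⌊A F i0 q w l z k ω⌋ - F.wt w ω * ⌊V F i0 q l z k ω⌋)⌋ : ℝ) := rfl
  rw [e3]
  rw [abs_le] at h1 h2 ⊢
  constructor <;> nlinarith [h1.1, h1.2, h2.1, h2.2]

theorem wt_mem' (w : ℕ) (ω : F.Ω) : 0 ≤ F.wt w ω ∧ F.wt w ω < 1 := Lab.wt_mem F w ω

theorem th_err (ω : F.Ω) : |2 ^ X * (F.wt w ω - th F w X ω)| ≤ 1 := by
  have h1 := rnd_err X (F.wt w ω)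
  unfold th
  have e : (2 : ℝ) ^ X * (F.wt w ω - (⌊(2 : ℝ) ^ X * F.wt w ω⌋ : ℝ) / 2 ^ X) =
      2 ^ X * F.wt w ω - ⌊(2 : ℝ) ^ X * F.wt w ω⌋ := by
    field_simp
  rw [e]
  exact h1

theorem o_err (k : Fin 2) (ω : F.Ω) :
    |2 ^ X * (Int.fract (V F i0 q l z k ω) - o F i0 q l X z k ω)| ≤ 1 := by
  have h1 := rnd_err X (Int.fract (V F i0 q l z k ω))
  unfold o
  have e : (2 : ℝ) ^ X * (Int.fract (V F i0 q l z k ω) -
      (⌊(2 : ℝ) ^ X * Int.fract (V F i0 q l z k ω)⌋ : ℝ) / 2 ^ X) =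
      2 ^ X * Int.fract (V F i0 q l z k ω) - ⌊(2 : ℝ) ^ X * Int.fract (V F i0 q l z k ω)⌋ := by
    field_simp
  rw [e]
  exact h1

theorem o_mem (k : Fin 2) (ω : F.Ω) : 0 ≤ o F i0 q l X z k ω ∧ o F i0 q l X z k ω ≤ 1 := by
  have h1 := Int.fract_nonneg (V F i0 q l z k ω)
  have h2 := (Int.fract_lt_one (V F i0 q l z k ω)).le
  have hX : (0 : ℝ) < 2 ^ X := by positivity
  unfold o
  constructor
  · refine div_nonneg ?_ hX.le
    have : (0 : ℤ) ≤ ⌊(2 : ℝ) ^ X * Int.fract (V F i0 q l z k ω)⌋ :=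
      Int.floor_nonneg.2 (by positivity)
    exact_mod_cast this
  · rw [div_le_one hX]
    refine (Int.floor_le _).trans ?_
    calc (2 : ℝ) ^ X * Int.fract (V F i0 q l z k ω) ≤ 2 ^ X * 1 :=
          mul_le_mul_of_nonneg_left h2 hX.le
      _ = 2 ^ X := mul_one _

/-- Same window of the length `w + X`: same rounded time. -/
theorem th_det (h : w + X ≤ J) {ω ω' : F.Ω} (he : F.T1 (w + X) ω = F.T1 (w + X) ω') :
    th F w X ω = th F w X ω' := by
  have e1 := T1_split F h ω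
  have e2 := T1_split F h ω'
  have e3 : F.T1 w ω = F.T1 w ω' := by rw [← T1_div F h ω, ← T1_div F h ω', he]
  have e4 : tl (F.wt w) X ω = tl (F.wt w) X ω' := by
    rw [tl_wt F h, tl_wt F h]
    rw [he, e3] at e1
    have : F.T ω % 2 ^ (J - w) / 2 ^ (J - (w + X)) = F.T ω' % 2 ^ (J - w) / 2 ^ (J - (w + X)) := by
      omega
    rw [this]
  unfold th
  have e5 : ⌊(2 : ℝ) ^ X * F.wt w ω⌋ = ⌊(2 : ℝ) ^ X * F.wt w ω'⌋ := e4
  rw [e5]

theorem o_det {ω ω' : F.Ω} (k : Fin 2) (h1 : ⌊V F i0 q l z k ω⌋ = ⌊V F i0 q l z k ω'⌋)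
    (h2 : ⌊V F i0 (q + X) l z k ω⌋ = ⌊V F i0 (q + X) l z k ω'⌋) :
    o F i0 q l X z k ω = o F i0 q l X z k ω' := by
  unfold o
  rw [floor_fract, floor_fract, h1]
  rw [V_add, V_add] at h2
  rw [h2]

/-- Same time and same rounded exact position: same rows. -/
theorem N_det {ω ω' : F.Ω} (k : Fin 2) (h1 : F.X J ω = F.X J ω') (h2 : F.T ω = F.T ω')
    (h3 : z ω = z ω') (h4 : ⌊A F i0 q w l z k ω⌋ = ⌊A F i0 q w l z k ω'⌋)
    (h5 : ⌊V F i0 q l z k ω⌋ = ⌊V F i0 q l z k ω'⌋) :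
    N F i0 q w l X z k ω = N F i0 q w l X z k ω' := by
  have e1 : xJ F ω = xJ F ω' := by
    funext j
    unfold xJ
    rw [h1]
  have e2 : F.wt w ω = F.wt w ω' := by
    unfold Fam.wt
    rw [h2]
  unfold N
  rw [e1, e2, h3, h4, h5]

/-- **Same line block and same context**: the rows at two times. -/
theorem N_two (hw : w ≤ J) (hz : ∀ ω i, |z ω i| ≤ 1) (h : q + w + X + l ≤ J) (k : Fin 2)
    {ω ω' : F.Ω} (h1 : ⌊A F i0 q w l z k ω⌋ = ⌊A F i0 q w l z k ω'⌋)
    (h2 : ⌊V F i0 q l z k ω⌋ = ⌊V F i0 q l z k ω'⌋)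
    (h3 : ⌊A F i0 (q + X) w l z k ω⌋ = ⌊A F i0 (q + X) w l z k ω'⌋)
    (h4 : ⌊V F i0 (q + X) l z k ω⌋ = ⌊V F i0 (q + X) l z k ω'⌋) :
    |((N F i0 q w l X z k ω' : ℝ) - N F i0 q w l X z k ω) -
      2 ^ X * ((th F w X ω' - th F w X ω) * o F i0 q l X z k ω)| ≤ 2 ^ 4 := by
  rw [A_add, A_add] at h3
  rw [V_add, V_add] at h4
  have a1 : |2 ^ X * (Int.fract (A F i0 q w l z k ω) - Int.fract (A F i0 q w l z k ω'))| ≤ 1 := by
    have e : Int.fract (A F i0 q w l z k ω) - Int.fract (A F i0 q w l z k ω') =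
        A F i0 q w l z k ω - A F i0 q w l z k ω' := by
      rw [Int.fract, Int.fract, h1]
      ring
    rw [e]
    exact floor_fine h3
  have a2 : |2 ^ X * (Int.fract (V F i0 q l z k ω) - Int.fract (V F i0 q l z k ω'))| ≤ 1 := by
    have e : Int.fract (V F i0 q l z k ω) - Int.fract (V F i0 q l z k ω') =
        V F i0 q l z k ω - V F i0 q l z k ω' := by
      rw [Int.fract, Int.fract, h2]
      ring
    rw [e]
    exact floor_fine h4
  have n1 := N_err (i0 := i0) hw hz h k ω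
  have n2 := N_err (i0 := i0) hw hz h k ω'
  have t1 := th_err (F := F) (w := w) (X := X) ω
  have t2 := th_err (F := F) (w := w) (X := X) ω'
  have o1 := o_err (F := F) (i0 := i0) (q := q) (l := l) (X := X) (z := z) k ω
  have w2 := wt_mem' (F := F) w ω'
  have f1 : 0 ≤ Int.fract (V F i0 q l z k ω) ∧ Int.fract (V F i0 q l z k ω) ≤ 1 :=
    ⟨Int.fract_nonneg _, (Int.fract_lt_one _).le⟩
  have g1 : |th F w X ω' - th F w X ω| ≤ 1 := by
    have hX : (0 : ℝ) < 2 ^ X := by positivity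
    have b : ∀ η : F.Ω, 0 ≤ th F w X η ∧ th F w X η ≤ 1 := by
      intro η
      have w1 := wt_mem' (F := F) w η
      unfold th
      constructor
      · refine div_nonneg ?_ hX.le
        have : (0 : ℤ) ≤ ⌊(2 : ℝ) ^ X * F.wt w η⌋ := Int.floor_nonneg.2 (by
          have := w1.1
          positivity)
        exact_mod_cast this
      · rw [div_le_one hX]
        refine (Int.floor_le _).trans ?_
        calc (2 : ℝ) ^ X * F.wt w η ≤ 2 ^ X * 1 := mul_le_mul_of_nonneg_left w1.2.le hX.le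
          _ = 2 ^ X := mul_one _
    have b1 := b ω
    have b2 := b ω'
    rw [abs_le]
    constructor <;> linarith [b1.1, b1.2, b2.1, b2.2]
  generalize N F i0 q w l X z k ω = n at *
  generalize N F i0 q w l X z k ω' = n' at *
  generalize th F w X ω = s at *
  generalize th F w X ω' = s' at *
  generalize o F i0 q l X z k ω = ox at *
  generalize Int.fract (A F i0 q w l z k ω) = a at *
  generalize Int.fract (A F i0 q w l z k ω') = a' at *
  generalize Int.fract (V F i0 q l z k ω) = v at *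
  generalize Int.fract (V F i0 q l z k ω') = v' at *
  generalize F.wt w ω = t at *
  generalize F.wt w ω' = t' at *
  have hX : (0 : ℝ) < 2 ^ X := by positivity
  generalize (2 : ℝ) ^ X = x at *
  have e : ((n' : ℝ) - n) - x * ((s' - s) * ox) =
      ((n' : ℝ) - x * (a' + t' * v')) - ((n : ℝ) - x * (a + t * v)) - x * (a - a') -
      t' * (x * (v - v')) + (x * (t' - s')) * v - (x * (t - s)) * v +
      (s' - s) * (x * (v - ox)) := by ring
  rw [e]
  have m1 : |t' * (x * (v - v'))| ≤ 1 := by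
    rw [abs_mul]
    calc |t'| * |x * (v - v')| ≤ 1 * 1 := mul_le_mul (by
          rw [abs_le]; constructor <;> linarith [w2.1, w2.2]) a2 (abs_nonneg _) zero_le_one
      _ = 1 := one_mul _
  have hv : |v| ≤ 1 := by rw [abs_le]; constructor <;> linarith [f1.1, f1.2]
  have m2 : |(x * (t' - s')) * v| ≤ 1 := by
    rw [abs_mul]
    calc |x * (t' - s')| * |v| ≤ 1 * 1 := mul_le_mul t2 hv (abs_nonneg _) zero_le_one
      _ = 1 := one_mul _
  have m3 : |(x * (t - s)) * v| ≤ 1 := by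
    rw [abs_mul]
    calc |x * (t - s)| * |v| ≤ 1 * 1 := mul_le_mul t1 hv (abs_nonneg _) zero_le_one
      _ = 1 := one_mul _
  have m4 : |(s' - s) * (x * (v - ox))| ≤ 1 := by
    rw [abs_mul]
    calc |s' - s| * |x * (v - ox)| ≤ 1 * 1 := mul_le_mul g1 o1 (abs_nonneg _) zero_le_one
      _ = 1 := one_mul _
  rw [abs_le] at *
  constructor <;> linarith [n1.1, n1.2, n2.1, n2.2, a1.1, a1.2, m1.1, m1.2, m2.1, m2.2, m3.1,
    m3.2, m4.1, m4.2]

/-- **The next context and the rows**: two samples with the same next context and the same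
context. -/
theorem N_next (hwX : w + X ≤ J) (hz : ∀ ω i, |z ω i| ≤ 1) (h : q + w + X + l ≤ J) {C₀ : ℝ}
    (hC₀ : 0 ≤ C₀) (k : Fin 2) {ω ω' : F.Ω} (hzz : ∀ j, j ≠ i0 → |z ω j - z' ω j| ≤ C₀ / 2 ^ l)
    (h0 : z ω = z ω')
    (h1 : ⌊A F i0 q w l z k ω⌋ = ⌊A F i0 q w l z k ω'⌋)
    (h2 : ⌊V F i0 q l z k ω⌋ = ⌊V F i0 q l z k ω'⌋)
    (hT : F.T1 (w + X) ω = F.T1 (w + X) ω') (h0' : z' ω = z' ω')
    (h3 : ∀ k, ⌊A F i0 q (w + X) l z' k ω⌋ = ⌊A F i0 q (w + X) l z' k ω'⌋) :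
    |((N F i0 q w l X z k ω - N F i0 q w l X z k ω' : ℤ) : ℝ)| ≤ C₀ + 12 := by
  have hw : w ≤ J := by omega
  have hX : (0 : ℝ) < 2 ^ X := by positivity
  have n1 := N_err (i0 := i0) hw hz h k ω
  have n2 := N_err (i0 := i0) hw hz h k ω'
  have t1 := th_err (F := F) (w := w) (X := X) ω
  have t2 := th_err (F := F) (w := w) (X := X) ω'
  have t3 := th_det (F := F) hwX hT
  have hT0 : F.T1 w ω = F.T1 w ω' := by rw [← T1_div F hwX ω, ← T1_div F hwX ω', hT]
  -- the positions at the beginning of the window of length `w + X`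
  obtain ⟨s, hs, s0, s1, e1⟩ := x1_shift F hwX ω
  obtain ⟨s', hs', -, -, e1'⟩ := x1_shift F hwX ω'
  have hss : s = s' := by rw [hs, hs', hT, hT0]
  rw [← hss] at e1'
  have pA : ∀ η : F.Ω, F.x1 (w + X) η = (fun i => F.x1 w η i + s * F.d η i) →
      2 ^ (prc q l k + w) * cor i0 (z η) (F.x1 (w + X) η) k =
        A F i0 q w l z k η + 2 ^ w * s * V F i0 q l z k η := by
    intro η hη
    rw [hη, cor_add_mul]
    unfold A V
    rw [pow_add]
    ring
  -- the difference in the frame `z`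
  have hd : |2 ^ X * (2 ^ (prc q l k + w) * cor i0 (z ω) (F.x1 (w + X) ω) k) -
      2 ^ X * (2 ^ (prc q l k + w) * cor i0 (z ω') (F.x1 (w + X) ω') k)| ≤ 1 + C₀ := by
    have b0 : |(2 : ℝ) ^ (q + (w + X)) * (F.x1 (w + X) ω i0 - F.x1 (w + X) ω' i0)| ≤ 1 := by
      have := h3 0
      unfold A prc cor at this
      simp only [if_true] at this
      have h4 := Int.abs_sub_lt_one_of_floor_eq_floor this
      rw [← mul_sub] at h4
      exact h4.le
    have b1 : |(2 : ℝ) ^ (q + l + (w + X)) * (F.x1 (w + X) ω (oth i0) - z' ω (oth i0) *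
        F.x1 (w + X) ω i0 - (F.x1 (w + X) ω' (oth i0) - z' ω (oth i0) * F.x1 (w + X) ω' i0))| ≤
        1 := by
      have := h3 1
      unfold A prc cor at this
      have h10 : ¬ ((1 : Fin 2) = 0) := by decide
      simp only [if_neg h10] at this
      rw [← h0'] at this
      have h4 := Int.abs_sub_lt_one_of_floor_eq_floor this
      rw [← mul_sub] at h4
      exact h4.le
    rw [← h0]
    unfold prc cor
    split_ifs
    · have e : (2 : ℝ) ^ X * (2 ^ (q + w) * F.x1 (w + X) ω i0) -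
          2 ^ X * (2 ^ (q + w) * F.x1 (w + X) ω' i0) =
          2 ^ (q + (w + X)) * (F.x1 (w + X) ω i0 - F.x1 (w + X) ω' i0) := by
        rw [pow_add 2 q w, pow_add 2 q (w + X), pow_add 2 w X]
        ring
      rw [e]
      linarith
    · have e : (2 : ℝ) ^ X * (2 ^ (q + l + w) * (F.x1 (w + X) ω (oth i0) -
            z ω (oth i0) * F.x1 (w + X) ω i0)) -
          2 ^ X * (2 ^ (q + l + w) * (F.x1 (w + X) ω' (oth i0) -
            z ω (oth i0) * F.x1 (w + X) ω' i0)) =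
          2 ^ (q + l + (w + X)) * (F.x1 (w + X) ω (oth i0) - z' ω (oth i0) *
            F.x1 (w + X) ω i0 - (F.x1 (w + X) ω' (oth i0) -
              z' ω (oth i0) * F.x1 (w + X) ω' i0)) -
          (2 ^ l * (z ω (oth i0) - z' ω (oth i0))) *
            (2 ^ (q + (w + X)) * (F.x1 (w + X) ω i0 - F.x1 (w + X) ω' i0)) := by
        rw [pow_add 2 (q + l) w, pow_add 2 (q + l) (w + X), pow_add 2 w X, pow_add 2 q l,
          pow_add 2 q (w + X), pow_add 2 w X]
        ring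
      rw [e]
      refine (abs_sub _ _).trans (add_le_add b1 ?_)
      rw [abs_mul]
      have c1 : |2 ^ l * (z ω (oth i0) - z' ω (oth i0))| ≤ C₀ := by
        have h2l : (0 : ℝ) < 2 ^ l := by positivity
        rw [abs_mul, abs_of_pos h2l]
        have := mul_le_mul_of_nonneg_left (hzz (oth i0) (oth_ne i0)) h2l.le
        rwa [mul_div_cancel₀ _ h2l.ne'] at this
      calc |2 ^ l * (z ω (oth i0) - z' ω (oth i0))| *
            |2 ^ (q + (w + X)) * (F.x1 (w + X) ω i0 - F.x1 (w + X) ω' i0)| ≤ C₀ * 1 :=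
            mul_le_mul c1 b0 (abs_nonneg _) hC₀
        _ = C₀ := mul_one _
  rw [pA ω e1, pA ω' e1'] at hd
  -- the rounded time
  have hth : th F w X ω = 2 ^ w * s := by
    have e2 := T1_split F hwX ω
    have e3 : (⌊(2 : ℝ) ^ X * F.wt w ω⌋ : ℤ) =
        ((F.T ω % 2 ^ (J - w) / 2 ^ (J - (w + X)) : ℕ) : ℤ) := tl_wt F hwX ω
    unfold th
    rw [e3]
    have e4 : ((F.T ω % 2 ^ (J - w) / 2 ^ (J - (w + X)) : ℕ) : ℝ) =
        (F.T1 (w + X) ω : ℝ) - F.T1 w ω * 2 ^ X := by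
      rw [e2]
      push_cast
      ring
    rw [Int.cast_natCast, e4, hs, pow_add]
    field_simp
  have f1 : 0 ≤ Int.fract (V F i0 q l z k ω) ∧ Int.fract (V F i0 q l z k ω) ≤ 1 :=
    ⟨Int.fract_nonneg _, (Int.fract_lt_one _).le⟩
  have f2 : 0 ≤ Int.fract (V F i0 q l z k ω') ∧ Int.fract (V F i0 q l z k ω') ≤ 1 :=
    ⟨Int.fract_nonneg _, (Int.fract_lt_one _).le⟩
  have eA : A F i0 q w l z k ω - A F i0 q w l z k ω' =
      Int.fract (A F i0 q w l z k ω) - Int.fract (A F i0 q w l z k ω') := by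
    rw [Int.fract, Int.fract, h1]
    ring
  have eV : V F i0 q l z k ω - V F i0 q l z k ω' =
      Int.fract (V F i0 q l z k ω) - Int.fract (V F i0 q l z k ω') := by
    rw [Int.fract, Int.fract, h2]
    ring
  rw [← t3] at t2
  rw [hth] at t1 t2
  push_cast
  generalize N F i0 q w l X z k ω = n at *
  generalize N F i0 q w l X z k ω' = n' at *
  generalize Int.fract (A F i0 q w l z k ω) = a at *
  generalize Int.fract (A F i0 q w l z k ω') = a' at *
  generalize Int.fract (V F i0 q l z k ω) = v at *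
  generalize Int.fract (V F i0 q l z k ω') = v' at *
  generalize A F i0 q w l z k ω = A1 at *
  generalize A F i0 q w l z k ω' = A2 at *
  generalize V F i0 q l z k ω = V1 at *
  generalize V F i0 q l z k ω' = V2 at *
  generalize F.wt w ω = t at *
  generalize F.wt w ω' = t' at *
  generalize (2 : ℝ) ^ w * s = r at *
  generalize (2 : ℝ) ^ X = x at *
  have hd' : |x * ((a - a') + r * (v - v'))| ≤ 1 + C₀ := by
    have e : x * ((a - a') + r * (v - v')) = x * (A1 + r * V1) - x * (A2 + r * V2) := by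
      rw [← eA, ← eV]
      ring
    rw [e]
    exact hd
  have m1 : |(x * (t - r)) * v| ≤ 1 := by
    rw [abs_mul]
    calc |x * (t - r)| * |v| ≤ 1 * 1 := mul_le_mul t1 (by
          rw [abs_le]; constructor <;> linarith [f1.1, f1.2]) (abs_nonneg _) zero_le_one
      _ = 1 := one_mul _
  have m2 : |(x * (t' - r)) * v'| ≤ 1 := by
    rw [abs_mul]
    calc |x * (t' - r)| * |v'| ≤ 1 * 1 := mul_le_mul t2 (by
          rw [abs_le]; constructor <;> linarith [f2.1, f2.2]) (abs_nonneg _) zero_le_one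
      _ = 1 := one_mul _
  have e : (n : ℝ) - n' = ((n : ℝ) - x * (a + t * v)) - ((n' : ℝ) - x * (a' + t' * v')) +
      x * ((a - a') + r * (v - v')) + (x * (t - r)) * v - (x * (t' - r)) * v' := by ring
  rw [e]
  rw [abs_le] at *
  constructor <;> linarith [n1.1, n1.2, n2.1, n2.2, hd'.1, hd'.2, m1.1, m1.2, m2.1, m2.2]

end lem

end Bet

end Pool.PC
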